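import Pool.Agent.Helper14.W5.StD

/-!
# Project W5: solutions of the relations with given leading form
-/

set_option autoImplicit false

namespace Pool.Agent.Helper80.W5

open Pool.Agent.Helper14.W5

private theorem five {M : Type*} [AddCommGroup M] [Module (ZMod 5) M] (x : M) :
    x + x + x + x + x = 0 := by
  have h : ((5 : ℕ) : ZMod 5) • x = x + x + x + x + x := by
    rw [Nat.cast_smul_eq_nsmul]
    abel
  rw [← h, ZMod.natCast_self, zero_smul]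

/-- The relations as equations between functions. -/
private theorem rel_of_eq {q q' : ℕ} (F : Fin 2 → Fn5 q q')
    (h1 : F 1 + tr5 2 (-1) 1 (-2) (F 1) = 0)
    (h2 : F 0 - tr5 1 1 0 1 (F 0) - F 1 +
      (tr5 3 (-2) 1 (-3) (F 0) - tr5 3 1 1 2 (F 0) - tr5 3 (-2) 1 (-3) (F 1)) = 0) : Rel5 F :=
  ⟨fun x y => congrFun (congrFun h1 x) y, fun x y => congrFun (congrFun h2 x) y⟩

theorem hLed (hm : S5Trm) (hl : S5Low0) (hn : S5Nfa) (h1 : S5Lw1) (hb : S5Bb) (hs : S5Sur) :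
    S5Led := by
  intro r s al be hal hbe hev
  obtain ⟨-, -, -, -, wmono, -, ldx, -⟩ := hl r s
  obtain ⟨b1, -⟩ := hb r s
  obtain ⟨-, -, -, -, nA, -⟩ := hn r s
  obtain ⟨l0, -, -, lodd⟩ := h1 r s
  have hal' : (al : ℤ) < 5 ^ r := by exact_mod_cast hal
  have hbe' : (be : ℤ) < 5 ^ s := by exact_mod_cast hbe
  have hU : ∀ F : Fn5 (5 ^ r) (5 ^ s), op5 2 (-1) 1 (-2) (op5 2 (-1) 1 (-2) F) = F := by
    intro F
    obtain ⟨m1, m2, m3⟩ := hm (ZMod 5) r s F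
    have e1 := m1 2 (-1) 1 (-2) 2 (-1) 1 (-2) (by decide) (by decide) (by decide) (by decide)
    have e2 := m3 (-1) 1 0 0 1 (by decide) (by decide) (by decide)
    norm_num at e1 e2
    change tr5 2 (-1) 1 (-2) (tr5 2 (-1) 1 (-2) F) = F
    rw [e1, e2, m2]
  have hV : ∀ F : Fn5 (5 ^ r) (5 ^ s), op5 3 (-2) 1 (-3) (op5 3 (-2) 1 (-3) F) = F := by
    intro F
    obtain ⟨m1, m2, m3⟩ := hm (ZMod 5) r s F
    have e1 := m1 3 (-2) 1 (-3) 3 (-2) 1 (-3) (by decide) (by decide) (by decide) (by decide)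
    have e2 := m3 (-1) 1 0 0 1 (by decide) (by decide) (by decide)
    norm_num at e1 e2
    change tr5 3 (-2) 1 (-3) (tr5 3 (-2) 1 (-3) F) = F
    rw [e1, e2, m2]
  have hVT : ∀ F : Fn5 (5 ^ r) (5 ^ s), op5 3 (-2) 1 (-3) (op5 1 1 0 1 F) = op5 3 1 1 2 F := by
    intro F
    obtain ⟨m1, -, -⟩ := hm (ZMod 5) r s F
    have e1 := m1 3 (-2) 1 (-3) 1 1 0 1 (by decide) (by decide) (by decide) (by decide)
    norm_num at e1
    change tr5 3 (-2) 1 (-3) (tr5 1 1 0 1 F) = tr5 3 1 1 2 F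
    exact e1
  obtain ⟨P, hP⟩ : ∃ P : Fn5 (5 ^ r) (5 ^ s), P = bb5 al be := ⟨_, rfl⟩
  have hPW : P ∈ Wd5 ((al : ℤ) + be) := by
    rw [hP]
    exact b1 al be hal hbe
  obtain ⟨A0, hA0⟩ : ∃ A0 : Fn5 (5 ^ r) (5 ^ s), A0 = dX P + dX P := ⟨_, rfl⟩
  have hA0W : A0 ∈ Wd5 ((al : ℤ) + be - 1) := by
    rw [hA0]
    exact Submodule.add_mem _ (ldx _ _ hPW) (ldx _ _ hPW)
  have hodd : Odd ((al : ℤ) + be - 1) := by
    obtain ⟨m, hm'⟩ := hev
    have e : (al : ℤ) + be = m + m := by exact_mod_cast hm'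
    exact ⟨(m : ℤ) - 1, by linarith⟩
  obtain ⟨E, hE⟩ : ∃ E : Fn5 (5 ^ r) (5 ^ s),
      E = P - op5 1 1 0 1 P - (A0 - op5 2 (-1) 1 (-2) A0) := ⟨_, rfl⟩
  have hEW : E ∈ Wd5 ((al : ℤ) + be - 2) := by
    have e1 : E = -((oA - 1 - dX : Module.End (ZMod 5) (Fn5 (5 ^ r) (5 ^ s))) P) +
        (op5 2 (-1) 1 (-2) A0 + A0) - (dX P + dX P + dX P + dX P + dX P) := by
      rw [hE]
      simp only [LinearMap.sub_apply, Module.End.one_apply, oA]
      rw [hA0]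
      abel
    rw [e1, five, sub_zero]
    refine Submodule.add_mem _ (Submodule.neg_mem _ ?_) ?_
    · exact wmono _ _ (by linarith) (nA _ _ hPW)
    · have h := (lodd _ _ hA0W hodd).1
      have e : (al : ℤ) + be - 1 - 1 = (al : ℤ) + be - 2 := by ring
      rwa [e] at h
  obtain ⟨f, a, b, hf, ha, -, hEq⟩ := hs r s ((al : ℤ) + be - 2) E (by linarith) hEW
  have e : (al : ℤ) + be - 2 + 1 = (al : ℤ) + be - 1 := by ring
  rw [e] at hf ha
  -- the functions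
  obtain ⟨F0, hF0⟩ : ∃ F0 : Fn5 (5 ^ r) (5 ^ s), F0 = P - f := ⟨_, rfl⟩
  obtain ⟨A, hA⟩ : ∃ A : Fn5 (5 ^ r) (5 ^ s), A = A0 - a := ⟨_, rfl⟩
  obtain ⟨F1, hF1⟩ : ∃ F1 : Fn5 (5 ^ r) (5 ^ s), F1 = A - op5 2 (-1) 1 (-2) A := ⟨_, rfl⟩
  have hk : F0 - op5 1 1 0 1 F0 - F1 = op5 3 (-2) 1 (-3) b - b := by
    have h : F0 - op5 1 1 0 1 F0 - F1 = E - (f - op5 1 1 0 1 f - (a - op5 2 (-1) 1 (-2) a) -
        (b - op5 3 (-2) 1 (-3) b)) + (op5 3 (-2) 1 (-3) b - b) := by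
      rw [hE, hF1, hF0, hA]
      simp only [map_sub]
      abel
    rw [h, hEq, sub_self, zero_add]
  refine ⟨![F0, F1], rel_of_eq _ ?_ ?_, ?_, ?_⟩
  · change F1 + op5 2 (-1) 1 (-2) F1 = 0
    rw [hF1, map_sub, hU]
    abel
  · change F0 - op5 1 1 0 1 F0 - F1 +
      (op5 3 (-2) 1 (-3) F0 - op5 3 1 1 2 F0 - op5 3 (-2) 1 (-3) F1) = 0
    rw [← hVT, ← map_sub, ← map_sub, hk, map_sub, hV]
    abel
  · change F0 - bb5 al be ∈ Wd5 ((al : ℤ) + be - 1)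
    rw [hF0, hP]
    have h : bb5 al be - f - bb5 al be = -f := by abel
    rw [h]
    exact Submodule.neg_mem _ hf
  · change F1 ∈ Wd5 ((al : ℤ) + be - 1)
    have hAW : A ∈ Wd5 ((al : ℤ) + be - 1) := by
      rw [hA]
      exact Submodule.sub_mem _ hA0W ha
    have h := l0 2 (-1) 1 (-2) (by decide) (by decide) _ _ hAW
    rw [sub_zero] at h
    rw [hF1]
    exact Submodule.sub_mem _ hAW h

end Pool.Agent.Helper80.W5
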